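import Pool.Agent.R464.GI.Defs
import Pool.Agent.Y986.GL.Card

/-!
# Final assembly of project GI: cardinal arithmetic, completeness, fibres
-/

set_option autoImplicit false

open Filter Topology Set Cardinal

namespace Pool.Agent.R464.GI

theorem isClosed_c0 (I : Idl) : IsClosed (c0 I : Set L) := by
  rw [← closure_subset_iff_isClosed]
  intro x hx ε hε
  obtain ⟨y, hy, hxy⟩ := Metric.mem_closure_iff.1 hx (ε / 2) (by linarith)
  refine I.2.sub _ (hy (ε / 2) (by linarith)) _ ?_
  intro n hn
  have h1 : |x n - y n| ≤ dist x y := by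
    have := BoundedContinuousFunction.dist_coe_le_dist (f := x) (g := y) n
    rwa [Real.dist_eq] at this
  have h2 : ε ≤ |x n| := hn
  have h3 : |x n| ≤ |x n - y n| + |y n| := by
    have := abs_add_le (x n - y n) (y n)
    rwa [sub_add_cancel] at this
  change ε / 2 ≤ |y n|
  linarith

theorem complete_X (I : Idl) : CompleteSpace (X I) :=
  (isClosed_c0 I).completeSpace_coe

theorem exists_unit (I : Idl) (n : ℕ) : ∃ u : X I, ∀ k, u.1 k = ind {n} k := by
  refine exists_X I (ind {n}) 1 (fun k => ?_) (fun ε hε => ?_)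
  · unfold ind
    by_cases h : k ∈ ({n} : Set ℕ)
    · rw [Set.indicator_of_mem h]; simp
    · rw [Set.indicator_of_notMem h]; simp
  · refine I.2.fin _ ((Set.finite_singleton n).subset ?_)
    intro k hk
    by_contra h
    have hk' : ε ≤ |ind {n} k| := hk
    unfold ind at hk'
    rw [Set.indicator_of_notMem h, abs_zero] at hk'
    linarith

theorem fibStm (hS : SepStm) (hO : OprStm) : FibStm := by
  intro U₀
  classical
  choose un hun using fun (U : Ultrafilter ℕ) => exists_unit (idl U)
  let Y := {U : Ultrafilter ℕ // Nonempty (X (idl U₀) ≃L[ℝ] X (idl U))}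
  let e : ∀ U : Y, X (idl U₀) ≃L[ℝ] X (idl U.1) := fun U => U.2.some
  let f : Y → (ℕ → ℕ → ℝ) := fun U n k => ((e U).symm (un U.1 n)).1 k
  have hf : Function.Injective f := by
    intro U U' h
    by_contra hne
    have hne' : U.1 ≠ U'.1 := fun h => hne (Subtype.ext h)
    obtain ⟨A, S, hA, hSA, hSJ, had⟩ := hS U.1 U'.1 hne'
    refine hO (idl U.1) (idl U'.1) A hA S hSA hSJ had
      ((e U').toContinuousLinearMap.comp (e U).symm.toContinuousLinearMap) ?_
    rintro u ⟨n, hn⟩
    have h1 : u = un U.1 n := X.ext (fun k => by rw [hn k, hun U.1 n k])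
    have h2 : (e U).symm (un U.1 n) = (e U').symm (un U'.1 n) :=
      X.ext (fun k => congrFun (congrFun h n) k)
    have h3 : ((e U').toContinuousLinearMap.comp (e U).symm.toContinuousLinearMap) u
        = un U'.1 n := by
      rw [h1]
      change (e U') ((e U).symm (un U.1 n)) = _
      rw [h2, ContinuousLinearEquiv.apply_symm_apply]
    rw [h3]
    refine BoundedContinuousFunction.ext (fun k => ?_)
    rw [hun U'.1 n k, hn k]
  have h := Cardinal.mk_le_of_injective hf
  refine h.trans (le_of_eq ?_)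
  simp [Cardinal.mk_real]

theorem np_of (q : Ultrafilter ℕ) (h : ∀ n : ℕ, {n}ᶜ ∈ q) : NP q := by
  intro S hS hSq
  have h1 : Sᶜ ∈ q := by
    clear hSq
    induction S, hS using Set.Finite.induction_on with
    | empty => rw [Set.compl_empty]; exact Filter.univ_mem
    | @insert a S _ _ ih =>
      have h2 : (insert a S)ᶜ = {a}ᶜ ∩ Sᶜ := by
        ext x; simp [not_or]
      rw [h2]
      exact Filter.inter_mem (h a) ih
  exact Ultrafilter.compl_notMem_iff.2 hSq h1

theorem final (hfib : FibStm) (hG : ∀ U : Ultrafilter ℕ, NP U → Groth (X (idl U))) :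
    FinalStm := by
  unfold FinalStm
  set κ : Cardinal.{0} := (2 : Cardinal.{0}) ^ ((2 : Cardinal.{0}) ^ ℵ₀) with hκ
  have hκ0 : ℵ₀ < κ := (Cardinal.cantor ℵ₀).trans (Cardinal.cantor _)
  have hκ1 : Cardinal.continuum < κ := by
    rw [← Cardinal.two_power_aleph0]; exact Cardinal.cantor _
  refine le_antisymm ?_ ?_
  · refine (Cardinal.mk_quotient_le).trans ((Cardinal.mk_subtype_le _).trans
      ((Cardinal.mk_subtype_le _).trans ?_))
    rw [Cardinal.mk_set, Cardinal.mk_set, Cardinal.mk_nat]
  · by_contra hlt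
    push Not at hlt
    let Y := {U : Ultrafilter ℕ // ∀ n : ℕ, {n}ᶜ ∈ U}
    let f : Y → Quotient isoSetoid := fun U => Quotient.mk isoSetoid ⟨idl U.1, hG U.1 (np_of U.1 U.2)⟩
    have hfibre : ∀ q : Quotient isoSetoid, #{U : Y // f U = q} ≤ Cardinal.continuum := by
      intro q
      by_cases hq : Nonempty {U : Y // f U = q}
      · obtain ⟨U₀, hU₀⟩ := hq
        refine le_trans ?_ (hfib U₀.1)
        refine Cardinal.mk_le_of_injective (f := fun U : {U : Y // f U = q} =>
          (⟨U.1.1, Quotient.exact (hU₀.trans U.2.symm)⟩ :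
            {U : Ultrafilter ℕ // Nonempty (X (idl U₀.1) ≃L[ℝ] X (idl U))})) ?_
        intro a b hab
        have hab' : a.1.1 = b.1.1 := congrArg (fun z => z.1) hab
        exact Subtype.ext (Subtype.ext hab')
      · rw [not_nonempty_iff] at hq
        rw [Cardinal.mk_eq_zero]
        exact zero_le
    have h1 : #Y = Cardinal.sum (fun q : Quotient isoSetoid => #{U : Y // f U = q}) := by
      rw [← Cardinal.mk_sigma]
      exact (Cardinal.mk_congr (Equiv.sigmaFiberEquiv f)).symm
    have h2 : #Y ≤ #(Quotient isoSetoid) * Cardinal.continuum := by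
      rw [h1]
      refine (Cardinal.sum_le_sum _ (fun _ => Cardinal.continuum) hfibre).trans (le_of_eq ?_)
      simp
    have h3 : κ ≤ #Y := Pool.Agent.Y986.GL.card_NP
    exact absurd ((h3.trans h2).trans_lt (Cardinal.mul_lt_of_lt hκ0.le hlt hκ1)) (lt_irrefl _)

end Pool.Agent.R464.GI
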