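import Pool.Agent.R464.GI.Defs

/-!
# GI-CNV: convex combinations which are Cauchy for a quadratic seminorm
-/

set_option autoImplicit false

open Filter Topology Set

namespace Pool.Agent.R464.GI

theorem cnvStm : CnvStm := by
  intro E _ _ Q h0 hpar hsm x C hC
  set H : ℕ → Set E := fun j => convexHull ℝ (x '' Set.Ici j) with hH
  have hne : ∀ j, x j ∈ H j := fun j =>
    subset_convexHull ℝ _ ⟨j, Set.mem_Ici.2 le_rfl, rfl⟩
  have hanti : ∀ i j, i ≤ j → H j ⊆ H i := fun i j hij =>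
    convexHull_mono (Set.image_mono (Set.Ici_subset_Ici.2 hij))
  have hconv : ∀ j, Convex ℝ (H j) := fun j => convex_convexHull ℝ _
  set d : ℕ → ℝ := fun j => sInf (Q '' H j) with hdd
  have hbdd : ∀ j, BddBelow (Q '' H j) := fun j => ⟨0, by rintro _ ⟨a, _, rfl⟩; exact h0 a⟩
  have hd : ∀ j a, a ∈ H j → d j ≤ Q a := fun j a ha => csInf_le (hbdd j) ⟨a, ha, rfl⟩
  have hmono : Monotone d := fun i j hij =>
    csInf_le_csInf (hbdd i) ⟨_, ⟨x j, hne j, rfl⟩⟩ (Set.image_mono (hanti i j hij))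
  have hub : BddAbove (Set.range d) :=
    ⟨C, by rintro _ ⟨j, rfl⟩; exact (hd j _ (hne j)).trans (hC j)⟩
  have hy : ∀ j, ∃ a ∈ H j, Q a < d j + 1 / ((j : ℝ) + 1) := by
    intro j
    have hlt : d j < d j + 1 / ((j : ℝ) + 1) := by
      have : (0 : ℝ) < 1 / ((j : ℝ) + 1) := by positivity
      linarith
    obtain ⟨_, ⟨a, ha, rfl⟩, hlt2⟩ :=
      exists_lt_of_csInf_lt (⟨_, ⟨x j, hne j, rfl⟩⟩ : (Q '' H j).Nonempty) hlt
    exact ⟨a, ha, hlt2⟩
  choose y hyH hyQ using hy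
  refine ⟨y, hyH, ?_⟩
  intro ε hε
  set D : ℝ := ⨆ j, d j with hD
  have hdD : ∀ j, d j ≤ D := fun j => le_ciSup hub j
  obtain ⟨K1, hK1⟩ : ∃ K, D - ε / 8 < d K := by
    have : D - ε / 8 < D := by linarith
    obtain ⟨K, hK⟩ := exists_lt_of_lt_ciSup this
    exact ⟨K, hK⟩
  obtain ⟨K2, hK2⟩ := exists_nat_one_div_lt (show (0 : ℝ) < ε / 8 by linarith)
  refine ⟨max K1 K2, ?_⟩
  intro i hi j hj
  set K := max K1 K2 with hK
  have hKd : D - ε / 8 < d K := lt_of_lt_of_le hK1 (hmono (le_max_left _ _))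
  have hsmall : ∀ l, K ≤ l → 1 / ((l : ℝ) + 1) ≤ ε / 8 := by
    intro l hl
    have h1 : K2 ≤ l := (le_max_right _ _).trans hl
    have h2 : (K2 : ℝ) ≤ l := by exact_mod_cast h1
    refine le_trans ?_ hK2.le
    exact one_div_le_one_div_of_le (by positivity) (by linarith)
  have hmid : (1 / 2 : ℝ) • (y j + y i) ∈ H K := by
    have h1 := hconv K (hanti K j hj (hyH j)) (hanti K i hi (hyH i))
      (show (0 : ℝ) ≤ 1 / 2 by norm_num) (show (0 : ℝ) ≤ 1 / 2 by norm_num) (by norm_num)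
    rwa [← smul_add] at h1
  have h1 := hd K _ hmid
  rw [hsm] at h1
  have h2 := hpar (y j) (y i)
  have h3 := hyQ i
  have h4 := hyQ j
  have h5 := hsmall i hi
  have h6 := hsmall j hj
  have h7 := hdD i
  have h8 := hdD j
  linarith

end Pool.Agent.R464.GI
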