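import Mathlib

/-!
# Grothendieck spaces `c_{0,I}`: definitions and the statements of the pieces (project GI)

Proofs: `Pool/Agent/R464/GI/NOTES.md`.
-/

set_option autoImplicit false

open Filter Topology Set

namespace Pool.Agent.R464.GI

/-- the Banach space `ℓ_∞` of bounded real sequences with the supremum norm -/
abbrev L : Type := BoundedContinuousFunction ℕ ℝ

/-- proper ideals of subsets of `ℕ` containing the finite sets -/
structure IsIdeal (I : Set (Set ℕ)) : Prop where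
  union : ∀ A ∈ I, ∀ B ∈ I, A ∪ B ∈ I
  sub : ∀ A ∈ I, ∀ B ⊆ A, B ∈ I
  fin : ∀ A : Set ℕ, A.Finite → A ∈ I
  proper : Set.univ ∉ I

abbrev Idl : Type := {I : Set (Set ℕ) // IsIdeal I}

/-- the subspace `c_{0,I}` of `ℓ_∞` -/
def c0 (I : Idl) : Submodule ℝ L where
  carrier := {x | ∀ ε : ℝ, 0 < ε → {n | ε ≤ |x n|} ∈ I.1}
  zero_mem' := by
    intro ε hε
    have h : {n : ℕ | ε ≤ |(0 : L) n|} = ∅ := by
      ext n; simp [hε]
    rw [h]; exact I.2.fin _ Set.finite_empty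
  add_mem' := by
    intro x y hx hy ε hε
    refine I.2.sub _ (I.2.union _ (hx (ε / 2) (by linarith)) _ (hy (ε / 2) (by linarith))) _ ?_
    intro n hn
    simp only [Set.mem_ofPred_eq, Set.mem_union, BoundedContinuousFunction.coe_add,
      Pi.add_apply] at hn ⊢
    by_contra hcon
    push Not at hcon
    have := abs_add_le (x n) (y n)
    linarith [hcon.1, hcon.2]
  smul_mem' := by
    intro c x hx ε hε
    rcases eq_or_ne c 0 with rfl | hc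
    · have h : {n : ℕ | ε ≤ |((0 : ℝ) • x) n|} = ∅ := by
        ext n; simp [hε]
      rw [h]; exact I.2.fin _ Set.finite_empty
    · have hc' : 0 < |c| := abs_pos.2 hc
      refine I.2.sub _ (hx (ε / |c|) (by positivity)) _ ?_
      intro n hn
      simp only [Set.mem_ofPred_eq, BoundedContinuousFunction.coe_smul, smul_eq_mul,
        abs_mul] at hn ⊢
      rw [div_le_iff₀ hc', mul_comm]
      exact hn

/-- the Banach space `c_{0,I}` (elements: `x = ⟨u, hu⟩`, `x.1 : L`, `hu : u ∈ c0 I`) -/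
def X (I : Idl) : Type := ↥(c0 I)

noncomputable instance instNACG (I : Idl) : NormedAddCommGroup (X I) :=
  inferInstanceAs (NormedAddCommGroup ↥(c0 I))

noncomputable instance instNS (I : Idl) : NormedSpace ℝ (X I) :=
  inferInstanceAs (NormedSpace ℝ ↥(c0 I))

section basic

variable {I : Idl}

theorem X.ext {x y : X I} (h : ∀ n, x.1 n = y.1 n) : x = y :=
  Subtype.ext (BoundedContinuousFunction.ext h)

theorem add_val (x y : X I) (n : ℕ) : (x + y).1 n = x.1 n + y.1 n := rfl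
theorem sub_val (x y : X I) (n : ℕ) : (x - y).1 n = x.1 n - y.1 n := rfl
theorem neg_val (x : X I) (n : ℕ) : (-x).1 n = -x.1 n := rfl
theorem smul_val (c : ℝ) (x : X I) (n : ℕ) : (c • x).1 n = c * x.1 n := rfl
theorem zero_val (n : ℕ) : (0 : X I).1 n = 0 := rfl
theorem norm_val (x : X I) : ‖x‖ = ‖x.1‖ := rfl

theorem abs_le_norm (x : X I) (n : ℕ) : |x.1 n| ≤ ‖x‖ :=
  BoundedContinuousFunction.norm_coe_le_norm x.1 n

theorem norm_le_of (x : X I) (C : ℝ) (hC : 0 ≤ C) (h : ∀ n, |x.1 n| ≤ C) : ‖x‖ ≤ C :=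
  (BoundedContinuousFunction.norm_le hC).2 h

theorem mem_ideal (x : X I) (ε : ℝ) (hε : 0 < ε) : {n | ε ≤ |x.1 n|} ∈ I.1 := x.2 ε hε

/-- constructing an element of `c_{0,I}` from a bounded sequence -/
theorem exists_X (I : Idl) (u : ℕ → ℝ) (C : ℝ) (hC : ∀ n, |u n| ≤ C)
    (h : ∀ ε : ℝ, 0 < ε → {n | ε ≤ |u n|} ∈ I.1) : ∃ x : X I, ∀ n, x.1 n = u n :=
  ⟨⟨BoundedContinuousFunction.ofNormedAddCommGroup u continuous_of_discreteTopology C
    (fun n => by simpa using hC n), h⟩, fun _ => rfl⟩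

end basic

/-- Grothendieck spaces: weak* null sequences of the dual are weakly null. -/
def Groth (E : Type) [NormedAddCommGroup E] [NormedSpace ℝ E] : Prop :=
  ∀ φ : ℕ → StrongDual ℝ E, (∀ x, Tendsto (fun n => φ n x) atTop (𝓝 0)) →
    ∀ F : StrongDual ℝ (StrongDual ℝ E), Tendsto (fun n => F (φ n)) atTop (𝓝 0)

/-- the ideal of an ultrafilter: the sets `A ⊆ ℕ × ℕ` with `U`-almost all columns finite -/
def IU (U : Ultrafilter ℕ) : Set (Set ℕ) := {A | {i : ℕ | {j : ℕ | Nat.pair i j ∈ A}.Finite} ∈ U}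

theorem isIdeal_IU (U : Ultrafilter ℕ) : IsIdeal (IU U) where
  union := by
    intro A hA B hB
    refine Filter.mem_of_superset (Filter.inter_mem hA hB) ?_
    rintro i ⟨h1, h2⟩
    exact (h1.union h2).subset (fun j hj => hj)
  sub := by
    intro A hA B hB
    refine Filter.mem_of_superset hA ?_
    intro i hi
    exact Set.Finite.subset hi (fun j hj => hB hj)
  fin := by
    intro A hA
    refine Filter.mem_of_superset Filter.univ_mem ?_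
    intro i _
    refine (hA.preimage (f := fun j => Nat.pair i j) ?_)
    intro a _ b _ hab
    exact (Nat.pair_eq_pair.1 hab).2
  proper := by
    intro h
    have h' : {i : ℕ | {j : ℕ | Nat.pair i j ∈ (Set.univ : Set ℕ)}.Finite} = ∅ := by
      ext i
      simp only [Set.mem_univ, Set.mem_ofPred_eq, Set.mem_empty_iff_false, iff_false]
      exact fun hf => Set.infinite_univ (hf.subset (fun _ _ => trivial))
    unfold IU at h
    rw [Set.mem_ofPred_eq, h'] at h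
    exact U.empty_notMem h

/-- the ideal of an ultrafilter, bundled -/
def idl (U : Ultrafilter ℕ) : Idl := ⟨IU U, isIdeal_IU U⟩

/-- nonprincipal ultrafilters -/
def NP (U : Ultrafilter ℕ) : Prop := ∀ S : Set ℕ, S.Finite → S ∉ U

/-- nonnegative bounded sequences -/
def Good (w : ℕ → ℝ) : Prop := (∀ n, 0 ≤ w n) ∧ ∃ C : ℝ, ∀ n, w n ≤ C

/-- bounded additive functionals on the nonnegative bounded sequences -/
structure PosFun (M : ℝ) (N : (ℕ → ℝ) → ℝ) : Prop where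
  nonneg : ∀ w, Good w → 0 ≤ N w
  add : ∀ w w', Good w → Good w' → N (fun n => w n + w' n) = N w + N w'
  smul : ∀ c : ℝ, 0 ≤ c → ∀ w, Good w → N (fun n => c * w n) = c * N w
  le : ∀ w, Good w → ∀ C : ℝ, (∀ n, w n ≤ C) → N w ≤ M * C

/-- `N` is the modulus of the functional `φ` on `c_{0,I}`. -/
structure IsMod (I : Idl) (φ : StrongDual ℝ (X I)) (N : (ℕ → ℝ) → ℝ) : Prop where
  pos : PosFun ‖φ‖ N
  le : ∀ x : X I, |φ x| ≤ N (fun n => |x.1 n|)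
  approx : ∀ w, Good w → ∀ ε : ℝ, 0 < ε → ∃ x : X I, (∀ n, |x.1 n| ≤ w n) ∧ N w - ε ≤ φ x

/-- nonnegative finitely additive set functions bounded by `M` -/
structure FA (M : ℝ) (m : Set ℕ → ℝ) : Prop where
  nonneg : ∀ A, 0 ≤ m A
  add : ∀ A B, Disjoint A B → m (A ∪ B) = m A + m B
  le : ∀ A, m A ≤ M

/-- the indicator function of a set -/
noncomputable def ind (A : Set ℕ) : ℕ → ℝ := Set.indicator A (fun _ => (1 : ℝ))

/-- GI-MOD: every functional has a modulus. -/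
def ModStm : Prop := ∀ (I : Idl) (φ : StrongDual ℝ (X I)), ∃ N : (ℕ → ℝ) → ℝ, IsMod I φ N

/-- GI-CNV: convex combinations which are Cauchy for a quadratic seminorm. -/
def CnvStm : Prop := ∀ (E : Type) [AddCommGroup E] [Module ℝ E] (Q : E → ℝ),
  (∀ a, 0 ≤ Q a) → (∀ a b, Q (a + b) + Q (a - b) = 2 * Q a + 2 * Q b) →
  (∀ (t : ℝ) a, Q (t • a) = t ^ 2 * Q a) → ∀ (x : ℕ → E) (C : ℝ), (∀ j, Q (x j) ≤ C) →
  ∃ y : ℕ → E, (∀ j, y j ∈ convexHull ℝ (x '' Set.Ici j)) ∧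
    ∀ ε : ℝ, 0 < ε → ∃ K, ∀ i, K ≤ i → ∀ j, K ≤ j → Q (y j - y i) ≤ ε

/-- uniformly exhaustive sequences of set functions -/
def Exh (m : ℕ → Set ℕ → ℝ) : Prop := ∀ D : ℕ → Set ℕ, (∀ i j, i ≠ j → Disjoint (D i) (D j)) →
  ∀ ε : ℝ, 0 < ε → ∃ K, ∀ k, K ≤ k → ∀ n, m n (D k) ≤ ε

/-- GI-VHS: a Vitali-Hahn-Saks type lemma for uniformly exhaustive sequences. -/
def VhsStm : Prop := ∀ (M : ℝ) (m : ℕ → Set ℕ → ℝ), (∀ n, FA M (m n)) → Exh m →
  ∀ B : ℕ → Set ℕ, (∀ n, Tendsto (fun k => m n (B k)) atTop (𝓝 0)) →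
  ∀ ε : ℝ, 0 < ε → ∃ K, ∀ k, K ≤ k → ∀ n, m n (B k) ≤ ε

/-- GI-ROS: Rosenthal's lemma. -/
def RosStm : Prop := ∀ (M : ℝ) (m : ℕ → Set ℕ → ℝ), (∀ n, FA M (m n)) →
  ∀ B : ℕ → Set ℕ, (∀ i j, i ≠ j → Disjoint (B i) (B j)) → ∀ ε : ℝ, 0 < ε →
  ∃ f : ℕ → ℕ, StrictMono f ∧ ∀ k, m (f k) (⋃ j ∈ {j : ℕ | j ≠ k}, B (f j)) ≤ ε

/-- GI-PPR: the combinatorial property of the ideals `IU U`. -/
def PprStm : Prop := ∀ U : Ultrafilter ℕ, NP U → ∀ (M : ℝ) (m : ℕ → Set ℕ → ℝ),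
  (∀ n, FA M (m n)) → ∀ B : ℕ → Set ℕ, (∀ k, B k ∈ IU U) →
  (∀ i j, i ≠ j → Disjoint (B i) (B j)) → ∀ ε : ℝ, 0 < ε → (∀ k, ε ≤ m k (B k)) →
  ∃ (f : ℕ → ℕ) (B' : ℕ → Set ℕ), StrictMono f ∧ (∀ k, B' k ⊆ B (f k)) ∧
    (∀ k, ε / 4 ≤ m (f k) (B' k)) ∧ (⋃ k, B' k) ∈ IU U

/-- GI-SEP: separation of the ideals of different ultrafilters. -/
def SepStm : Prop := ∀ U U' : Ultrafilter ℕ, U ≠ U' →
  ∃ (A : Set ℕ) (S : (ℕ → Bool) → Set ℕ), A ∈ IU U ∧ (∀ x, S x ⊆ A) ∧ (∀ x, S x ∉ IU U') ∧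
    ∀ x y, x ≠ y → (S x ∩ S y).Finite

/-- GI-OPR: an operator fixing the unit vectors transfers members of almost disjoint families. -/
def OprStm : Prop := ∀ (I J : Idl) (A : Set ℕ), A ∈ I.1 → ∀ S : (ℕ → Bool) → Set ℕ,
  (∀ x, S x ⊆ A) → (∀ x, S x ∉ J.1) → (∀ x y, x ≠ y → (S x ∩ S y).Finite) →
  ∀ T : X I →L[ℝ] X J, ¬ ∀ u : X I, (∃ n : ℕ, ∀ k, u.1 k = ind {n} k) → (T u).1 = u.1

/-- GI-EXH: weak* null sequences on `c_{0,IU U}` have uniformly exhaustive moduli (uses GI-ROS,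
GI-PPR). -/
def ExhStm : Prop := ∀ U : Ultrafilter ℕ, NP U → ∀ φ : ℕ → StrongDual ℝ (X (idl U)),
  (∀ x, Tendsto (fun n => φ n x) atTop (𝓝 0)) → ∀ M : ℝ, (∀ n, ‖φ n‖ ≤ M) →
  ∀ N : ℕ → (ℕ → ℝ) → ℝ, (∀ n, IsMod (idl U) (φ n) (N n)) → Exh (fun n A => N n (ind A))

/-- GI-HEL: Helly's lemma. -/
def HelStm : Prop := ∀ (E : Type) [NormedAddCommGroup E] [NormedSpace ℝ E]
  (F : StrongDual ℝ (StrongDual ℝ E)) (φ : ℕ → StrongDual ℝ E) (n : ℕ) (ε : ℝ), 0 < ε →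
  ∃ x : E, ‖x‖ ≤ ‖F‖ + 1 ∧ ∀ i, i ≤ n → |φ i x - F (φ i)| ≤ ε

/-- GI-GRO: Grothendieck property from uniform exhaustivity (uses GI-MOD, GI-CNV, GI-VHS,
GI-HEL). -/
def GroStm : Prop := ∀ I : Idl,
  (∀ φ : ℕ → StrongDual ℝ (X I), (∀ x, Tendsto (fun n => φ n x) atTop (𝓝 0)) →
    ∀ M : ℝ, (∀ n, ‖φ n‖ ≤ M) → ∀ N : ℕ → (ℕ → ℝ) → ℝ, (∀ n, IsMod I (φ n) (N n)) →
    Exh (fun n A => N n (ind A))) → Groth (X I)

/-- GI-FIB: few ultrafilters give isomorphic spaces (uses GI-SEP, GI-OPR). -/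
def FibStm : Prop := ∀ U₀ : Ultrafilter ℕ,
  Cardinal.mk {U : Ultrafilter ℕ // Nonempty (X (idl U₀) ≃L[ℝ] X (idl U))} ≤ Cardinal.continuum

/-- the relation of isomorphism (as Banach spaces) on the ideals with Grothendieck `c_{0,I}` -/
def isoSetoid : Setoid {I : Idl // Groth (X I)} where
  r I J := Nonempty (X I.1 ≃L[ℝ] X J.1)
  iseqv := ⟨fun _ => ⟨ContinuousLinearEquiv.refl ℝ _⟩, fun ⟨e⟩ => ⟨e.symm⟩,
    fun ⟨e⟩ ⟨f⟩ => ⟨e.trans f⟩⟩

/-- The final statement. -/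
def FinalStm : Prop :=
  Cardinal.mk (Quotient isoSetoid) = (2 : Cardinal.{0}) ^ ((2 : Cardinal.{0}) ^ Cardinal.aleph0)

end Pool.Agent.R464.GI
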