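import Pool.Agent.R464.GI.Defs

/-!
# GI-GRO: the Grothendieck property from uniform exhaustivity
-/

set_option autoImplicit false

open Filter Topology Set

namespace Pool.Agent.R464.GI

namespace GroAux

theorem ind_mem {A : Set ℕ} {n : ℕ} (h : n ∈ A) : ind A n = 1 := indicator_of_mem h _

theorem ind_notMem {A : Set ℕ} {n : ℕ} (h : n ∉ A) : ind A n = 0 := indicator_of_notMem h _

theorem good_ind (A : Set ℕ) : Good (ind A) := by
  refine ⟨fun n => ?_, 1, fun n => ?_⟩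
  · by_cases h : n ∈ A
    · rw [ind_mem h]
      exact zero_le_one
    · rw [ind_notMem h]
  · by_cases h : n ∈ A
    · rw [ind_mem h]
    · rw [ind_notMem h]
      exact zero_le_one

theorem good_const {c : ℝ} (hc : 0 ≤ c) : Good (fun _ => c) := ⟨fun _ => hc, c, fun _ => le_rfl⟩

theorem good_add {w w' : ℕ → ℝ} (h : Good w) (h' : Good w') : Good (fun n => w n + w' n) := by
  obtain ⟨h1, C, hC⟩ := h
  obtain ⟨h1', C', hC'⟩ := h'
  exact ⟨fun n => add_nonneg (h1 n) (h1' n), C + C', fun n => add_le_add (hC n) (hC' n)⟩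

theorem good_mul {c : ℝ} (hc : 0 ≤ c) {w : ℕ → ℝ} (h : Good w) : Good (fun n => c * w n) := by
  obtain ⟨h1, C, hC⟩ := h
  exact ⟨fun n => mul_nonneg hc (h1 n), c * C, fun n => mul_le_mul_of_nonneg_left (hC n) hc⟩

theorem mono {M : ℝ} {N : (ℕ → ℝ) → ℝ} (h : PosFun M N) {w w' : ℕ → ℝ} (hw : Good w)
    (hw' : Good w') (hle : ∀ n, w n ≤ w' n) : N w ≤ N w' := by
  have hd : Good (fun n => w' n - w n) := by
    obtain ⟨C, hC⟩ := hw'.2
    refine ⟨fun n => sub_nonneg.2 (hle n), C, fun n => ?_⟩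
    have h1 := hC n
    have h2 := hw.1 n
    linarith
  have h1 := h.add w _ hw hd
  have e : (fun n => w n + (w' n - w n)) = w' := by
    funext n
    ring
  rw [e] at h1
  have h2 := h.nonneg _ hd
  linarith

theorem fa {M M' : ℝ} {N : (ℕ → ℝ) → ℝ} (h : PosFun M' N) (hM : M' ≤ M) :
    FA M (fun A => N (ind A)) := by
  refine ⟨fun A => h.nonneg _ (good_ind A), fun A B hAB => ?_, fun A => ?_⟩
  · show N (ind (A ∪ B)) = N (ind A) + N (ind B)
    rw [← h.add _ _ (good_ind A) (good_ind B)]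
    congr 1
    funext n
    by_cases hA : n ∈ A
    · have hB : n ∉ B := fun hB => (Set.disjoint_left.1 hAB hA hB)
      rw [ind_mem (Or.inl hA), ind_mem hA, ind_notMem hB, add_zero]
    · by_cases hB : n ∈ B
      · rw [ind_mem (Or.inr hB), ind_notMem hA, ind_mem hB, zero_add]
      · have : n ∉ A ∪ B := fun hc => hc.elim hA hB
        rw [ind_notMem this, ind_notMem hA, ind_notMem hB, add_zero]
  · have h1 := h.le _ (good_ind A) 1 (fun n => by
      by_cases h : n ∈ A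
      · rw [ind_mem h]
      · rw [ind_notMem h]
        exact zero_le_one)
    show N (ind A) ≤ M
    linarith

variable {I : Idl}

theorem sq_le (z : X I) (k : ℕ) : z.1 k ^ 2 ≤ ‖z‖ ^ 2 := by
  rw [← sq_abs]
  exact pow_le_pow_left₀ (abs_nonneg _) (abs_le_norm z k) 2

theorem good_sq (z : X I) : Good (fun k => z.1 k ^ 2) :=
  ⟨fun k => sq_nonneg _, ‖z‖ ^ 2, fun k => sq_le z k⟩

theorem good_abs (z : X I) : Good (fun k => |z.1 k|) :=
  ⟨fun k => abs_nonneg _, ‖z‖, fun k => abs_le_norm z k⟩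

theorem q_par {M : ℝ} {N : (ℕ → ℝ) → ℝ} (h : PosFun M N) (a b : X I) :
    N (fun k => (a + b).1 k ^ 2) + N (fun k => (a - b).1 k ^ 2) =
      2 * N (fun k => a.1 k ^ 2) + 2 * N (fun k => b.1 k ^ 2) := by
  rw [← h.add _ _ (good_sq _) (good_sq _), ← h.smul 2 (by norm_num) _ (good_sq a),
    ← h.smul 2 (by norm_num) _ (good_sq b),
    ← h.add _ _ (good_mul (by norm_num) (good_sq a)) (good_mul (by norm_num) (good_sq b))]
  congr 1
  funext k
  rw [add_val, sub_val]
  ring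

theorem q_smul {M : ℝ} {N : (ℕ → ℝ) → ℝ} (h : PosFun M N) (t : ℝ) (a : X I) :
    N (fun k => (t • a).1 k ^ 2) = t ^ 2 * N (fun k => a.1 k ^ 2) := by
  rw [← h.smul (t ^ 2) (sq_nonneg t) _ (good_sq a)]
  congr 1
  funext k
  rw [smul_val]
  ring

theorem summ (M : ℝ) (q : ℕ → ℝ) (h0 : ∀ n, 0 ≤ q n) (hM : ∀ n, q n ≤ M) :
    Summable (fun n => (1 / 2 : ℝ) ^ n * q n) := by
  refine Summable.of_nonneg_of_le (fun n => mul_nonneg (by positivity) (h0 n))
    (fun n => mul_le_mul_of_nonneg_left (hM n) (by positivity)) ?_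
  exact (summable_geometric_two).mul_right M

theorem core (hM : ModStm) (hC : CnvStm) (hV : VhsStm) (hH : HelStm) (I : Idl)
    (hE : ∀ φ : ℕ → StrongDual ℝ (X I), (∀ x, Tendsto (fun n => φ n x) atTop (𝓝 0)) →
    ∀ M : ℝ, (∀ n, ‖φ n‖ ≤ M) → ∀ N : ℕ → (ℕ → ℝ) → ℝ, (∀ n, IsMod I (φ n) (N n)) →
    Exh (fun n A => N n (ind A))) (ψ : ℕ → StrongDual ℝ (X I))
    (hψ : ∀ x, Tendsto (fun n => ψ n x) atTop (𝓝 0)) (M : ℝ) (hψM : ∀ n, ‖ψ n‖ ≤ M)
    (F : StrongDual ℝ (StrongDual ℝ (X I))) (δ : ℝ) (hδ : 0 < δ) (hF : ∀ n, δ ≤ F (ψ n)) :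
    False := by
  have hM0 : 0 ≤ M := (norm_nonneg _).trans (hψM 0)
  choose N hN using fun n => hM I (ψ n)
  have hExh := hE ψ hψ M hψM N hN
  obtain ⟨R, hR⟩ : ∃ R : ℝ, R = ‖F‖ + 1 := ⟨_, rfl⟩
  have hR1 : 1 ≤ R := by
    rw [hR]
    have := norm_nonneg F
    linarith
  choose x hx1 hx2 using fun j : ℕ => hH (X I) F ψ j (δ / 2) (by linarith)
  have hx3 : ∀ j n, n ≤ j → δ / 2 ≤ ψ n (x j) := by
    intro j n hn
    have h1 := hx2 j n hn
    have h2 := hF n
    have h3 := (abs_le.1 h1).1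
    linarith
  -- the quadratic form
  have hNle : ∀ n w, Good w → ∀ C : ℝ, 0 ≤ C → (∀ k, w k ≤ C) → N n w ≤ M * C := by
    intro n w hw C hC0 hwC
    exact ((hN n).pos.le w hw C hwC).trans (mul_le_mul_of_nonneg_right (hψM n) hC0)
  have hq0 : ∀ n (z : X I), 0 ≤ N n (fun k => z.1 k ^ 2) := fun n z =>
    (hN n).pos.nonneg _ (good_sq z)
  have hqM : ∀ n (z : X I), N n (fun k => z.1 k ^ 2) ≤ M * ‖z‖ ^ 2 := fun n z =>
    hNle n _ (good_sq z) _ (sq_nonneg _) (sq_le z)
  obtain ⟨Q, hQ⟩ : ∃ Q : X I → ℝ, Q = fun z => ∑' n, (1 / 2 : ℝ) ^ n * N n (fun k => z.1 k ^ 2) :=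
    ⟨_, rfl⟩
  have hsum : ∀ z : X I, Summable (fun n => (1 / 2 : ℝ) ^ n * N n (fun k => z.1 k ^ 2)) :=
    fun z => summ _ _ (fun n => hq0 n z) (fun n => hqM n z)
  have hQle : ∀ n z, (1 / 2 : ℝ) ^ n * N n (fun k => z.1 k ^ 2) ≤ Q z := by
    intro n z
    rw [hQ]
    exact (hsum z).le_tsum n (fun m _ => mul_nonneg (by positivity) (hq0 m z))
  obtain ⟨y, hy1, hy2⟩ := hC (X I) Q
    (fun a => by
      rw [hQ]
      exact tsum_nonneg fun n => mul_nonneg (by positivity) (hq0 n a))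
    (fun a b => by
      rw [hQ]
      show (∑' n, (1 / 2 : ℝ) ^ n * N n (fun k => (a + b).1 k ^ 2)) +
        (∑' n, (1 / 2 : ℝ) ^ n * N n (fun k => (a - b).1 k ^ 2)) =
        2 * (∑' n, (1 / 2 : ℝ) ^ n * N n (fun k => a.1 k ^ 2)) +
        2 * (∑' n, (1 / 2 : ℝ) ^ n * N n (fun k => b.1 k ^ 2))
      rw [← (hsum (a + b)).tsum_add (hsum (a - b)), ← tsum_mul_left, ← tsum_mul_left,
        ← ((hsum a).mul_left 2).tsum_add ((hsum b).mul_left 2)]
      refine tsum_congr fun n => ?_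
      have h1 := q_par (hN n).pos a b
      linear_combination (1 / 2 : ℝ) ^ n * h1)
    (fun t a => by
      rw [hQ]
      show (∑' n, (1 / 2 : ℝ) ^ n * N n (fun k => (t • a).1 k ^ 2)) =
        t ^ 2 * ∑' n, (1 / 2 : ℝ) ^ n * N n (fun k => a.1 k ^ 2)
      rw [← tsum_mul_left]
      refine tsum_congr fun n => ?_
      rw [q_smul (hN n).pos t a]
      ring)
    x (2 * (M * R ^ 2)) (fun j => by
      rw [hQ]
      show (∑' n, (1 / 2 : ℝ) ^ n * N n (fun k => (x j).1 k ^ 2)) ≤ _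
      have h1 : ∑' n, (1 / 2 : ℝ) ^ n * N n (fun k => (x j).1 k ^ 2) ≤
          ∑' n, (1 / 2 : ℝ) ^ n * (M * R ^ 2) := by
        refine (hsum (x j)).tsum_le_tsum (fun n => ?_) (summable_geometric_two.mul_right _)
        refine mul_le_mul_of_nonneg_left ((hqM n (x j)).trans ?_) (by positivity)
        refine mul_le_mul_of_nonneg_left ?_ hM0
        refine pow_le_pow_left₀ (norm_nonneg _) ?_ 2
        rw [hR]
        exact hx1 j
      refine h1.trans (le_of_eq ?_)
      rw [tsum_mul_right, tsum_geometric_two])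
  have hyR : ∀ j, ‖y j‖ ≤ R := by
    intro j
    have h1 : convexHull ℝ (x '' Ici j) ⊆ Metric.closedBall (0 : X I) R := by
      refine convexHull_min ?_ (convex_closedBall _ _)
      rintro _ ⟨i, _, rfl⟩
      rw [mem_closedBall_zero_iff, hR]
      exact hx1 i
    have h2 := h1 (hy1 j)
    rwa [mem_closedBall_zero_iff] at h2
  have hyψ : ∀ j n, n ≤ j → δ / 2 ≤ ψ n (y j) := by
    intro j n hn
    have h1 : convexHull ℝ (x '' Ici j) ⊆ {z : X I | δ / 2 ≤ ψ n z} := by
      refine convexHull_min ?_ ?_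
      · rintro _ ⟨i, hi, rfl⟩
        exact hx3 i n (hn.trans hi)
      · intro a ha b hb s t hs ht hst
        show δ / 2 ≤ ψ n (s • a + t • b)
        rw [map_add, map_smul, map_smul, smul_eq_mul, smul_eq_mul]
        have ha' : δ / 2 ≤ ψ n a := ha
        have hb' : δ / 2 ≤ ψ n b := hb
        have h3 := mul_le_mul_of_nonneg_left ha' hs
        have h4 := mul_le_mul_of_nonneg_left hb' ht
        have h5 : s * (δ / 2) + t * (δ / 2) = δ / 2 := by
          rw [← add_mul, hst, one_mul]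
        linarith
    exact h1 (hy1 j)
  have hnk : ∀ k : ℕ, ∃ n, ψ n (y k) ≤ δ / 4 := by
    intro k
    exact ((hψ (y k)).eventually_le_const (by linarith : (0 : ℝ) < δ / 4)).exists
  choose nk hnk using hnk
  obtain ⟨z, hz⟩ : ∃ z : ℕ → X I, z = fun k => y (max k (nk k)) - y k := ⟨_, rfl⟩
  have hzψ : ∀ k, δ / 4 ≤ ψ (nk k) (z k) := by
    intro k
    rw [hz]
    show δ / 4 ≤ ψ (nk k) (y (max k (nk k)) - y k)
    rw [map_sub]
    have h1 := hyψ (max k (nk k)) (nk k) (le_max_right _ _)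
    have h2 := hnk k
    linarith
  have hzR : ∀ k, ‖z k‖ ≤ 2 * R := by
    intro k
    rw [hz]
    refine (norm_sub_le _ _).trans ?_
    have h1 := hyR (max k (nk k))
    have h2 := hyR k
    linarith
  have hQz : Tendsto (fun k => Q (z k)) atTop (𝓝 0) := by
    rw [Metric.tendsto_atTop]
    intro ε hε
    obtain ⟨K, hK⟩ := hy2 (ε / 2) (by linarith)
    refine ⟨K, fun k hk => ?_⟩
    have h1 := hK k hk (max k (nk k)) (hk.trans (le_max_left _ _))
    have h2 : 0 ≤ Q (z k) := by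
      rw [hQ]
      exact tsum_nonneg fun n => mul_nonneg (by positivity) (hq0 n _)
    rw [dist_zero_right, Real.norm_eq_abs, abs_of_nonneg h2]
    have h3 : Q (z k) ≤ ε / 2 := by
      rw [hz]
      exact h1
    linarith
  obtain ⟨θ, hθ⟩ : ∃ θ : ℝ, θ = δ / (16 * (M + 1)) := ⟨_, rfl⟩
  have hθ0 : 0 < θ := by
    rw [hθ]
    positivity
  have hθM : θ * M ≤ δ / 16 := by
    have h1 : θ * (M + 1) = δ / 16 := by
      rw [hθ]
      field_simp
    nlinarith
  obtain ⟨B, hB⟩ : ∃ B : ℕ → Set ℕ, B = fun k => {m | θ ≤ |(z k).1 m|} := ⟨_, rfl⟩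
  have hBle : ∀ n k, N n (ind (B k)) ≤ (θ ^ 2)⁻¹ * N n (fun m => (z k).1 m ^ 2) := by
    intro n k
    rw [← (hN n).pos.smul _ (by positivity) _ (good_sq (z k))]
    refine mono (hN n).pos (good_ind _) (good_mul (by positivity) (good_sq _)) fun m => ?_
    by_cases hm : m ∈ B k
    · rw [ind_mem hm]
      rw [hB] at hm
      have h1 : θ ≤ |(z k).1 m| := hm
      have h2 : θ ^ 2 ≤ (z k).1 m ^ 2 := by
        rw [← sq_abs ((z k).1 m)]
        exact pow_le_pow_left₀ hθ0.le h1 2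
      rw [← div_eq_inv_mul, le_div_iff₀ (by positivity), one_mul]
      exact h2
    · rw [ind_notMem hm]
      have := sq_nonneg ((z k).1 m)
      positivity
  have hBt : ∀ n, Tendsto (fun k => N n (ind (B k))) atTop (𝓝 0) := by
    intro n
    have h1 : Tendsto (fun k => (θ ^ 2)⁻¹ * (2 ^ n * Q (z k))) atTop (𝓝 0) := by
      have := (hQz.const_mul (2 ^ n)).const_mul ((θ ^ 2)⁻¹)
      simpa using this
    refine squeeze_zero (fun k => (hN n).pos.nonneg _ (good_ind _)) (fun k => ?_) h1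
    refine (hBle n k).trans (mul_le_mul_of_nonneg_left ?_ (by positivity))
    have h2 := hQle n (z k)
    have h3 : (2 : ℝ) ^ n * ((1 / 2 : ℝ) ^ n * N n (fun m => (z k).1 m ^ 2)) =
        N n (fun m => (z k).1 m ^ 2) := by
      rw [← mul_assoc, ← mul_pow]
      norm_num
    rw [← h3]
    exact mul_le_mul_of_nonneg_left h2 (by positivity)
  obtain ⟨K, hK⟩ := hV M (fun n A => N n (ind A)) (fun n => fa (hN n).pos (hψM n)) hExh B hBt
    (δ / (32 * (R + 1))) (by positivity)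
  have h1 := hK K le_rfl (nk K)
  have h2 : ψ (nk K) (z K) ≤ 2 * R * N (nk K) (ind (B K)) + θ * M := by
    have h3 := (le_abs_self _).trans ((hN (nk K)).le (z K))
    have h4 : N (nk K) (fun n => |(z K).1 n|) ≤
        N (nk K) (fun n => 2 * R * ind (B K) n + θ) := by
      refine mono (hN _).pos (good_abs _)
        (good_add (good_mul (by positivity) (good_ind _)) (good_const hθ0.le)) fun m => ?_
      by_cases hm : m ∈ B K
      · rw [ind_mem hm, mul_one]
        have := (abs_le_norm (z K) m).trans (hzR K)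
        linarith
      · rw [ind_notMem hm, mul_zero, zero_add]
        rw [hB] at hm
        have h5 : ¬ θ ≤ |(z K).1 m| := hm
        exact (not_le.1 h5).le
    rw [(hN (nk K)).pos.add _ _ (good_mul (by positivity) (good_ind _)) (good_const hθ0.le),
      (hN (nk K)).pos.smul _ (by positivity) _ (good_ind _)] at h4
    have h5 := hNle (nk K) (fun _ => θ) (good_const hθ0.le) θ hθ0.le (fun _ => le_rfl)
    linarith
  have h3 : 2 * R * N (nk K) (ind (B K)) ≤ δ / 16 := by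
    have h4 : 2 * R * N (nk K) (ind (B K)) ≤ 2 * R * (δ / (32 * (R + 1))) :=
      mul_le_mul_of_nonneg_left h1 (by positivity)
    have h5 : 2 * R * (δ / (32 * (R + 1))) ≤ δ / 16 := by
      have h6 : 2 * R * (δ / (32 * (R + 1))) = δ / 16 * (R / (R + 1)) := by
        field_simp
        ring
      rw [h6]
      have h7 : R / (R + 1) ≤ 1 := by
        rw [div_le_one (by linarith)]
        linarith
      have h8 : δ / 16 * (R / (R + 1)) ≤ δ / 16 * 1 := mul_le_mul_of_nonneg_left h7 (by positivity)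
      linarith
    linarith
  have h4 := hzψ K
  linarith

end GroAux

open GroAux in
theorem groStm (hM : ModStm) (hC : CnvStm) (hV : VhsStm) (hH : HelStm)
    (hcpl : ∀ I, CompleteSpace (X I)) : GroStm := by
  intro I hE φ hφ F
  have := hcpl I
  obtain ⟨M, hMb⟩ : ∃ M, ∀ n, ‖φ n‖ ≤ M := by
    refine banach_steinhaus fun x => ?_
    obtain ⟨C, hC⟩ := (hφ x).norm.bddAbove_range
    exact ⟨C, fun n => hC ⟨n, rfl⟩⟩
  by_contra hcon
  rw [Metric.tendsto_atTop] at hcon
  push Not at hcon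
  obtain ⟨δ, hδ, hcon⟩ := hcon
  have hfr : ∃ᶠ n in atTop, δ ≤ |F (φ n)| := by
    rw [frequently_atTop]
    intro a
    obtain ⟨n, hn, h⟩ := hcon a
    rw [dist_zero_right, Real.norm_eq_abs] at h
    exact ⟨n, hn, h⟩
  obtain ⟨f, hf, hfF⟩ := extraction_of_frequently_atTop hfr
  have hsg : ∀ n, ∃ s : ℝ, (s = 1 ∨ s = -1) ∧ s * F (φ (f n)) = |F (φ (f n))| := by
    intro n
    rcases le_total 0 (F (φ (f n))) with h | h
    · exact ⟨1, Or.inl rfl, by rw [one_mul, abs_of_nonneg h]⟩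
    · exact ⟨-1, Or.inr rfl, by rw [abs_of_nonpos h]; ring⟩
  choose s hs1 hs2 using hsg
  have hsabs : ∀ n, |s n| = 1 := by
    intro n
    rcases hs1 n with h | h
    · rw [h, abs_one]
    · rw [h, abs_neg, abs_one]
  refine core hM hC hV hH I hE (fun n => s n • φ (f n)) ?_ M ?_ F δ hδ ?_
  · intro x
    have h1 : Tendsto (fun n => φ (f n) x) atTop (𝓝 0) := (hφ x).comp hf.tendsto_atTop
    rw [tendsto_zero_iff_abs_tendsto_zero] at h1 ⊢
    refine h1.congr fun n => ?_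
    show |φ (f n) x| = |s n * φ (f n) x|
    rw [abs_mul, hsabs, one_mul]
  · intro n
    rw [norm_smul, Real.norm_eq_abs, hsabs, one_mul]
    exact hMb _
  · intro n
    show δ ≤ F (s n • φ (f n))
    rw [map_smul, smul_eq_mul, hs2]
    exact hfF n

end Pool.Agent.R464.GI
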