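import Pool.Agent.R464.GI.Defs

/-! # Project GI, piece HEL: Helly's lemma -/

set_option autoImplicit false

open Filter Topology Set

namespace Pool.Agent.R464.GI

theorem helStm : HelStm := by
  intro E _ _ F φ n ε hε
  let Λ : E →L[ℝ] (Fin (n + 1) → ℝ) := ContinuousLinearMap.pi fun i => φ i
  have hΛ : ∀ x i, Λ x i = φ i x := fun x i => rfl
  set R : ℝ := ‖F‖ + 1 with hR
  have hR0 : 0 < R := by positivity
  let C : Set (Fin (n + 1) → ℝ) := closure (Λ '' Metric.closedBall (0 : E) R)
  let v : Fin (n + 1) → ℝ := fun i => F (φ i)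
  have hconv : Convex ℝ C := ((convex_closedBall (0 : E) R).linear_image Λ.toLinearMap).closure
  by_cases hv : v ∈ C
  · obtain ⟨w, hw, hwd⟩ := Metric.mem_closure_iff.1 hv ε hε
    obtain ⟨x, hx, rfl⟩ := hw
    refine ⟨x, by simpa using hx, ?_⟩
    intro i hi
    have h1 : dist (v ⟨i, by omega⟩) (Λ x ⟨i, by omega⟩) ≤ dist v (Λ x) := dist_le_pi_dist _ _ _
    have h2 : v ⟨i, by omega⟩ = F (φ i) := rfl
    have h3 : Λ x ⟨i, by omega⟩ = φ i x := rfl
    rw [h2, h3, dist_comm, Real.dist_eq] at h1
    exact h1.trans hwd.le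
  · exfalso
    obtain ⟨f, u, hf1, hf2⟩ := geometric_hahn_banach_closed_point hconv isClosed_closure hv
    let ψ : StrongDual ℝ E := f.comp Λ
    have hball : ∀ x : E, ‖x‖ ≤ R → ψ x < u := by
      intro x hx
      exact hf1 _ (subset_closure ⟨x, by simpa using hx, rfl⟩)
    have hu : 0 < u := by
      have := hball 0 (by rw [norm_zero]; exact hR0.le)
      rwa [map_zero] at this
    have hψ : ‖ψ‖ ≤ u / R := by
      apply ContinuousLinearMap.opNorm_le_bound _ (by positivity)
      intro x
      by_cases hx : x = 0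
      · rw [hx, map_zero, norm_zero, norm_zero, mul_zero]
      · have hxn : 0 < ‖x‖ := norm_pos_iff.2 hx
        have hn : ‖(R / ‖x‖) • x‖ = R := by
          rw [norm_smul, Real.norm_of_nonneg (by positivity)]
          field_simp
        have h1 := hball _ hn.le
        have h2 := hball (-((R / ‖x‖) • x)) (by rw [norm_neg]; exact hn.le)
        rw [map_neg] at h2
        rw [map_smul, smul_eq_mul] at h1 h2
        rw [Real.norm_eq_abs]
        have h3 : R / ‖x‖ * |ψ x| ≤ u := by
          rcases abs_cases (ψ x) with ⟨h, _⟩ | ⟨h, _⟩ <;> rw [h] <;> linarith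
        have h4 : |ψ x| * R ≤ u * ‖x‖ := by
          rw [div_mul_eq_mul_div, div_le_iff₀ hxn] at h3
          linarith
        rw [div_mul_eq_mul_div, le_div_iff₀ hR0]
        exact h4
    have hFψ : F ψ = f v := by
      have e1 : ψ = ∑ i : Fin (n + 1), f (Pi.single i 1) • φ i := by
        ext x
        rw [ContinuousLinearMap.sum_apply]
        have : Λ x = ∑ i : Fin (n + 1), (φ i x) • (Pi.single i (1 : ℝ) : Fin (n + 1) → ℝ) := by
          funext j
          rw [Finset.sum_apply]
          simp [hΛ, Pi.single_apply]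
        show f (Λ x) = _
        rw [this, map_sum]
        apply Finset.sum_congr rfl
        intro i _
        rw [map_smul, ContinuousLinearMap.smul_apply, smul_eq_mul, smul_eq_mul, mul_comm]
      have e2 : v = ∑ i : Fin (n + 1), (F (φ i)) • (Pi.single i (1 : ℝ) : Fin (n + 1) → ℝ) := by
        funext j
        rw [Finset.sum_apply]
        simp [v, Pi.single_apply]
      rw [e1, map_sum]
      conv_rhs => rw [e2, map_sum]
      apply Finset.sum_congr rfl
      intro i _
      rw [map_smul, map_smul, smul_eq_mul, smul_eq_mul, mul_comm]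
    have h5 : F ψ ≤ ‖F‖ * ‖ψ‖ := (le_abs_self _).trans (F.le_opNorm ψ)
    have h6 : ‖F‖ * ‖ψ‖ ≤ R * (u / R) := by
      apply mul_le_mul _ hψ (norm_nonneg _) hR0.le
      rw [hR]
      linarith
    have h7 : R * (u / R) = u := by field_simp
    rw [← hFψ] at hf2
    linarith

end Pool.Agent.R464.GI
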