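import Pool.Agent.R464.GI.Defs

/-!
# Project GI, piece GI-MOD: every functional on `c_{0,I}` has a modulus (helper771)
-/

set_option autoImplicit false

open Filter Topology Set

namespace Pool.Agent.R464.GI

namespace ModAux

variable {I : Idl}

/-- the set of values of `φ` on the order interval of `w` -/
def SS (φ : StrongDual ℝ (X I)) (w : ℕ → ℝ) : Set ℝ :=
  {r | ∃ x : X I, (∀ n, |x.1 n| ≤ w n) ∧ φ x = r}

/-- the modulus -/
noncomputable def NN (φ : StrongDual ℝ (X I)) (w : ℕ → ℝ) : ℝ := sSup (SS φ w)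

lemma solid (y : X I) (u : ℕ → ℝ) (h : ∀ n, |u n| ≤ |y.1 n|) : ∃ x : X I, ∀ n, x.1 n = u n := by
  refine exists_X I u ‖y‖ (fun n => (h n).trans (abs_le_norm y n)) ?_
  intro ε hε
  refine I.2.sub _ (mem_ideal y ε hε) _ ?_
  intro n hn
  exact le_trans (show ε ≤ |u n| from hn) (h n)

lemma zero_mem (φ : StrongDual ℝ (X I)) {w : ℕ → ℝ} (hw : Good w) : (0 : ℝ) ∈ SS φ w := by
  refine ⟨0, fun n => ?_, map_zero φ⟩
  rw [zero_val, abs_zero]
  exact hw.1 n

lemma bound (φ : StrongDual ℝ (X I)) {w : ℕ → ℝ} (hw : Good w) {C : ℝ} (hC : ∀ n, w n ≤ C)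
    {r : ℝ} (hr : r ∈ SS φ w) : r ≤ ‖φ‖ * C := by
  obtain ⟨x, hx, rfl⟩ := hr
  have hC0 : 0 ≤ C := (hw.1 0).trans (hC 0)
  have h1 : φ x ≤ ‖φ x‖ := le_trans (le_abs_self _) (le_of_eq (Real.norm_eq_abs _).symm)
  refine h1.trans ((φ.le_opNorm x).trans ?_)
  exact mul_le_mul_of_nonneg_left (norm_le_of x C hC0 (fun n => (hx n).trans (hC n)))
    (norm_nonneg φ)

lemma bdd (φ : StrongDual ℝ (X I)) {w : ℕ → ℝ} (hw : Good w) : BddAbove (SS φ w) := by
  obtain ⟨C, hC⟩ := hw.2
  exact ⟨‖φ‖ * C, fun r hr => bound φ hw hC hr⟩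

lemma le_NN (φ : StrongDual ℝ (X I)) {w : ℕ → ℝ} (hw : Good w) (x : X I)
    (hx : ∀ n, |x.1 n| ≤ w n) : φ x ≤ NN φ w :=
  le_csSup (bdd φ hw) ⟨x, hx, rfl⟩

lemma NN_le (φ : StrongDual ℝ (X I)) {w : ℕ → ℝ} (hw : Good w) {B : ℝ}
    (h : ∀ x : X I, (∀ n, |x.1 n| ≤ w n) → φ x ≤ B) : NN φ w ≤ B := by
  refine csSup_le ⟨0, zero_mem φ hw⟩ ?_
  rintro r ⟨x, hx, rfl⟩
  exact h x hx

lemma good_add {w w' : ℕ → ℝ} (hw : Good w) (hw' : Good w') : Good (fun n => w n + w' n) := by
  obtain ⟨C, hC⟩ := hw.2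
  obtain ⟨C', hC'⟩ := hw'.2
  exact ⟨fun n => add_nonneg (hw.1 n) (hw'.1 n), C + C', fun n => add_le_add (hC n) (hC' n)⟩

lemma good_smul {w : ℕ → ℝ} (hw : Good w) {c : ℝ} (hc : 0 ≤ c) : Good (fun n => c * w n) := by
  obtain ⟨C, hC⟩ := hw.2
  exact ⟨fun n => mul_nonneg hc (hw.1 n), c * C, fun n => mul_le_mul_of_nonneg_left (hC n) hc⟩

lemma good_abs (x : X I) : Good (fun n => |x.1 n|) :=
  ⟨fun _ => abs_nonneg _, ‖x‖, fun n => abs_le_norm x n⟩

lemma clamp_props (a w w' : ℝ) (hw : 0 ≤ w) (hw' : 0 ≤ w') (h : |a| ≤ w + w') :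
    |max (min a w) (-w)| ≤ w ∧ |max (min a w) (-w)| ≤ |a| ∧
    |a - max (min a w) (-w)| ≤ w' ∧ |a - max (min a w) (-w)| ≤ |a| := by
  rcases le_total a w with h1 | h1
  · rw [min_eq_left h1]
    rcases le_total a (-w) with h2 | h2
    · rw [max_eq_right h2]
      have ha : a ≤ 0 := by linarith
      rw [abs_of_nonpos ha] at h ⊢
      refine ⟨?_, ?_, ?_, ?_⟩
      · rw [abs_neg, abs_of_nonneg hw]
      · rw [abs_neg, abs_of_nonneg hw]; linarith
      · rw [abs_le]; constructor <;> linarith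
      · rw [abs_le]; constructor <;> linarith
    · rw [max_eq_left h2]
      refine ⟨abs_le.2 ⟨h2, h1⟩, le_rfl, ?_, ?_⟩
      · rw [sub_self, abs_zero]; exact hw'
      · rw [sub_self, abs_zero]; exact abs_nonneg _
  · rw [min_eq_right h1, max_eq_left (by linarith)]
    have ha : 0 ≤ a := by linarith
    rw [abs_of_nonneg ha] at h ⊢
    refine ⟨?_, ?_, ?_, ?_⟩
    · rw [abs_of_nonneg hw]
    · rw [abs_of_nonneg hw]; exact h1
    · rw [abs_le]; constructor <;> linarith
    · rw [abs_le]; constructor <;> linarith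

lemma NN_add (φ : StrongDual ℝ (X I)) {w w' : ℕ → ℝ} (hw : Good w) (hw' : Good w') :
    NN φ (fun n => w n + w' n) = NN φ w + NN φ w' := by
  apply le_antisymm
  · refine NN_le φ (good_add hw hw') ?_
    intro x hx
    obtain ⟨x1, hx1⟩ := solid x (fun n => max (min (x.1 n) (w n)) (-(w n)))
      (fun n => (clamp_props _ _ _ (hw.1 n) (hw'.1 n) (hx n)).2.1)
    obtain ⟨x2, hx2⟩ := solid x (fun n => x.1 n - max (min (x.1 n) (w n)) (-(w n)))
      (fun n => (clamp_props _ _ _ (hw.1 n) (hw'.1 n) (hx n)).2.2.2)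
    have hsum : x = x1 + x2 := by
      apply X.ext
      intro n
      rw [add_val, hx1, hx2]
      ring
    rw [hsum, map_add]
    apply add_le_add
    · refine le_NN φ hw x1 (fun n => ?_)
      rw [hx1]
      exact (clamp_props _ _ _ (hw.1 n) (hw'.1 n) (hx n)).1
    · refine le_NN φ hw' x2 (fun n => ?_)
      rw [hx2]
      exact (clamp_props _ _ _ (hw.1 n) (hw'.1 n) (hx n)).2.2.1
  · have key : ∀ x : X I, (∀ n, |x.1 n| ≤ w n) → ∀ x' : X I, (∀ n, |x'.1 n| ≤ w' n) →
        φ x + φ x' ≤ NN φ (fun n => w n + w' n) := by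
      intro x hx x' hx'
      rw [← map_add]
      refine le_NN φ (good_add hw hw') (x + x') (fun n => ?_)
      rw [add_val]
      exact (abs_add_le _ _).trans (add_le_add (hx n) (hx' n))
    have h1 : ∀ x' : X I, (∀ n, |x'.1 n| ≤ w' n) →
        NN φ w ≤ NN φ (fun n => w n + w' n) - φ x' := by
      intro x' hx'
      refine NN_le φ hw ?_
      intro x hx
      linarith [key x hx x' hx']
    have h2 : NN φ w' ≤ NN φ (fun n => w n + w' n) - NN φ w := by
      refine NN_le φ hw' ?_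
      intro x' hx'
      linarith [h1 x' hx']
    linarith

lemma NN_smul (φ : StrongDual ℝ (X I)) {w : ℕ → ℝ} (hw : Good w) {c : ℝ} (hc : 0 ≤ c) :
    NN φ (fun n => c * w n) = c * NN φ w := by
  rcases hc.eq_or_lt with rfl | hc
  · rw [zero_mul]
    apply le_antisymm
    · refine NN_le φ (good_smul hw le_rfl) ?_
      intro x hx
      have : x = 0 := by
        apply X.ext
        intro n
        have h := hx n
        rw [zero_mul] at h
        rw [zero_val]
        exact abs_nonpos_iff.1 h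
      rw [this, map_zero]
    · exact le_csSup (bdd φ (good_smul hw le_rfl)) (zero_mem φ (good_smul hw le_rfl))
  · apply le_antisymm
    · refine NN_le φ (good_smul hw hc.le) ?_
      intro x hx
      have h1 : φ (c⁻¹ • x) ≤ NN φ w := by
        refine le_NN φ hw _ (fun n => ?_)
        rw [smul_val, abs_mul, abs_of_pos (inv_pos.2 hc), inv_mul_le_iff₀ hc]
        exact hx n
      rw [map_smul, smul_eq_mul, inv_mul_le_iff₀ hc] at h1
      exact h1
    · have h1 : NN φ w ≤ c⁻¹ * NN φ (fun n => c * w n) := by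
        refine NN_le φ hw ?_
        intro x hx
        have h2 : φ (c • x) ≤ NN φ (fun n => c * w n) := by
          refine le_NN φ (good_smul hw hc.le) _ (fun n => ?_)
          rw [smul_val, abs_mul, abs_of_pos hc]
          exact mul_le_mul_of_nonneg_left (hx n) hc.le
        rw [map_smul, smul_eq_mul] at h2
        rw [le_inv_mul_iff₀ hc]
        exact h2
      rwa [le_inv_mul_iff₀ hc] at h1

end ModAux

open ModAux in
theorem modStm : ModStm := by
  intro I φ
  refine ⟨NN φ, ⟨?_, ?_, ?_, ?_⟩, ?_, ?_⟩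
  · intro w hw
    exact le_csSup (bdd φ hw) (zero_mem φ hw)
  · intro w w' hw hw'
    exact NN_add φ hw hw'
  · intro c hc w hw
    exact NN_smul φ hw hc
  · intro w hw C hC
    exact csSup_le ⟨0, zero_mem φ hw⟩ (fun r hr => bound φ hw hC hr)
  · intro x
    rw [abs_le']
    constructor
    · exact le_NN φ (good_abs x) x (fun n => le_rfl)
    · rw [← map_neg]
      refine le_NN φ (good_abs x) (-x) (fun n => ?_)
      rw [neg_val, abs_neg]
  · intro w hw ε hε
    obtain ⟨r, ⟨x, hx, rfl⟩, hr⟩ := exists_lt_of_lt_csSup ⟨0, zero_mem φ hw⟩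
      (show NN φ w - ε < sSup (SS φ w) by unfold NN; linarith)
    exact ⟨x, hx, hr.le⟩

end Pool.Agent.R464.GI
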