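import Pool.Agent.R464.GI.Defs

/-!
# GI-ROS: Rosenthal's lemma for finitely additive set functions, with infinite unions
-/

set_option autoImplicit false

open Filter Topology Set

namespace Pool.Agent.R464.GI

theorem FA.mono {M : ℝ} {m : Set ℕ → ℝ} (h : FA M m) {A B : Set ℕ} (hAB : A ⊆ B) : m A ≤ m B := by
  have h1 : m B = m A + m (B \ A) := by
    rw [← h.add A (B \ A) disjoint_sdiff_right, Set.union_sdiff_cancel hAB]
  have := h.nonneg (B \ A)
  linarith

theorem ros_ind (M : ℝ) (ε : ℝ) (hε : 0 < ε) (s : ℕ) :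
    ∀ (m : ℕ → Set ℕ → ℝ), (∀ n, FA M (m n)) →
    ∀ B : ℕ → Set ℕ, (∀ i j, i ≠ j → Disjoint (B i) (B j)) →
    (∀ k, m k (⋃ j, B j) ≤ s * ε) →
    ∃ f : ℕ → ℕ, StrictMono f ∧ ∀ k, m (f k) (⋃ j ∈ {j : ℕ | j ≠ k}, B (f j)) ≤ ε := by
  induction s with
  | zero =>
    intro m hm B hB hk
    refine ⟨id, strictMono_id, fun k => ?_⟩
    have h1 : m k (⋃ j ∈ {j : ℕ | j ≠ k}, B j) ≤ m k (⋃ j, B j) :=
      (hm k).mono (Set.iUnion₂_subset fun j _ => Set.subset_iUnion B j)
    have h2 := hk k
    simp only [Nat.cast_zero, zero_mul] at h2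
    exact (h1.trans h2).trans hε.le
  | succ s ih =>
    intro m hm B hB hk
    by_cases hA : ∃ p, ∀ q, m (Nat.pair p q) (⋃ j ∈ {j : ℕ | j ≠ q}, B (Nat.pair p j)) ≤ ε
    · obtain ⟨p, hp⟩ := hA
      exact ⟨fun q => Nat.pair p q, fun a b hab => Nat.pair_lt_pair_right p hab, hp⟩
    · push Not at hA
      choose q hq using hA
      have htend : Tendsto (fun p => Nat.pair p (q p)) atTop atTop :=
        tendsto_atTop_mono (fun p => Nat.left_le_pair p (q p)) tendsto_id
      obtain ⟨g, hg, hkg⟩ := Filter.strictMono_subseq_of_tendsto_atTop htend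
      have hstep : ∀ i, m (Nat.pair (g i) (q (g i))) (⋃ j, B (Nat.pair (g j) (q (g j)))) ≤ s * ε := by
        intro i
        have hdis : Disjoint (⋃ j, B (Nat.pair (g j) (q (g j))))
            (⋃ j ∈ {j : ℕ | j ≠ q (g i)}, B (Nat.pair (g i) j)) := by
          rw [Set.disjoint_iUnion_left]
          intro j
          rw [Set.disjoint_iUnion₂_right]
          intro l hl
          refine hB _ _ ?_
          intro heq
          obtain ⟨h1, h2⟩ := Nat.pair_eq_pair.1 heq
          apply hl
          rw [← h2, h1]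
        have h1 := (hm (Nat.pair (g i) (q (g i)))).add _ _ hdis
        have h2 := (hm (Nat.pair (g i) (q (g i)))).mono
          (A := (⋃ j, B (Nat.pair (g j) (q (g j)))) ∪
            (⋃ j ∈ {j : ℕ | j ≠ q (g i)}, B (Nat.pair (g i) j))) (B := ⋃ j, B j)
          (Set.union_subset (Set.iUnion_subset fun j => Set.subset_iUnion B _)
            (Set.iUnion₂_subset fun j _ => Set.subset_iUnion B _))
        have h3 := hk (Nat.pair (g i) (q (g i)))
        have h4 := hq (g i)
        push_cast at h3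
        linarith
      obtain ⟨f, hf, hfk⟩ := ih (fun i => m (Nat.pair (g i) (q (g i)))) (fun i => hm _)
        (fun i => B (Nat.pair (g i) (q (g i)))) (fun i j hij => hB _ _ (fun h =>
          hij (hkg.injective h))) hstep
      exact ⟨fun i => Nat.pair (g (f i)) (q (g (f i))), hkg.comp hf, hfk⟩

theorem rosStm : RosStm := by
  intro M m hm B hB ε hε
  obtain ⟨s, hs⟩ := exists_nat_ge (M / ε)
  refine ros_ind M ε hε s m hm B hB (fun k => ((hm k).le _).trans ?_)
  rw [div_le_iff₀ hε] at hs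
  exact hs

end Pool.Agent.R464.GI
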