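import Pool.Agent.R464.GI.Defs

/-!
# GI-VHS: a Vitali-Hahn-Saks type lemma for uniformly exhaustive sequences of set functions
-/

set_option autoImplicit false

open Filter Topology Set

namespace Pool.Agent.R464.GI

namespace VhsAux

variable {M : ℝ} {m : Set ℕ → ℝ}

theorem empty (h : FA M m) : m ∅ = 0 := by
  have h1 := h.add ∅ ∅ (by simp)
  simp only [Set.union_empty] at h1
  linarith

theorem mono (h : FA M m) {A B : Set ℕ} (hAB : A ⊆ B) : m A ≤ m B := by
  have h1 := h.add A (B \ A) Set.disjoint_sdiff_right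
  rw [Set.union_sdiff_cancel hAB] at h1
  have h2 := h.nonneg (B \ A)
  linarith

theorem sub (h : FA M m) (A B : Set ℕ) : m (A ∪ B) ≤ m A + m B := by
  have h1 := h.add A (B \ A) Set.disjoint_sdiff_right
  rw [Set.union_sdiff_self] at h1
  have h2 := mono h (A := B \ A) (B := B) Set.sdiff_subset
  linarith

/-- the basic selection principle -/
theorem sel {μ : ℕ → Set ℕ → ℝ} (hE : Exh μ) (C : ℕ → ℕ → Set ℕ)
    (hC : ∀ a b c d, a < b → b ≤ c → c < d → Disjoint (C a b) (C c d)) (δ : ℝ) (hδ : 0 < δ) :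
    ∃ l, ∀ p, l < p → ∀ n, μ n (C l p) ≤ δ := by
  by_contra hcon
  push Not at hcon
  choose p hp n hn using hcon
  set f : ℕ → ℕ := fun i => p^[i] 0 with hf
  have hf1 : ∀ i, f (i + 1) = p (f i) := fun i => by
    simp only [hf, Function.iterate_succ_apply']
  have hmono : StrictMono f := strictMono_nat_of_lt_succ fun i => by
    rw [hf1]
    exact hp _
  obtain ⟨K, hK⟩ := hE (fun i => C (f i) (f (i + 1))) (by
    intro i j hij
    rcases lt_or_gt_of_ne hij with h | h
    · exact hC _ _ _ _ (hmono (Nat.lt_succ_self i)) (hmono.monotone h) (hmono (Nat.lt_succ_self j))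
    · exact (hC _ _ _ _ (hmono (Nat.lt_succ_self j)) (hmono.monotone h)
        (hmono (Nat.lt_succ_self i))).symm) δ hδ
  have h1 := hK K le_rfl (n (f K))
  have h2 := hn (f K)
  simp only [hf1] at h1
  linarith

/-- increasing sequences -/
theorem sel_inc {μ : ℕ → Set ℕ → ℝ} (hE : Exh μ) (A : ℕ → Set ℕ) (hA : Monotone A) (δ : ℝ)
    (hδ : 0 < δ) : ∃ l, ∀ p, l < p → ∀ n, μ n (A p \ A l) ≤ δ := by
  refine sel hE (fun l p => A p \ A l) ?_ δ hδ
  intro a b c d _ hbc _
  refine Set.disjoint_left.2 fun x hx hx' => hx'.2 (hA hbc hx.1)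

/-- decreasing sequences -/
theorem sel_dec {μ : ℕ → Set ℕ → ℝ} (hE : Exh μ) (A : ℕ → Set ℕ) (hA : Antitone A) (δ : ℝ)
    (hδ : 0 < δ) : ∃ l, ∀ p, l < p → ∀ n, μ n (A l \ A p) ≤ δ := by
  refine sel hE (fun l p => A l \ A p) ?_ δ hδ
  intro a b c d _ hbc _
  refine Set.disjoint_left.2 fun x hx hx' => hx.2 (hA hbc hx'.1)

/-- partial unions -/
def V (B : ℕ → Set ℕ) (k : ℕ) : ℕ → Set ℕ
  | 0 => B k
  | d + 1 => V B k d ∪ B (k + d + 1)

theorem V_mono (B : ℕ → Set ℕ) (k : ℕ) : Monotone (V B k) :=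
  monotone_nat_of_le_succ fun d => by
    show V B k d ≤ V B k d ∪ B (k + d + 1)
    exact Set.subset_union_left

theorem V_mem (B : ℕ → Set ℕ) (k d : ℕ) : B (k + d) ⊆ V B k d := by
  cases d with
  | zero => exact subset_rfl
  | succ d =>
    show B (k + (d + 1)) ⊆ V B k d ∪ B (k + d + 1)
    exact Set.subset_union_right

/-- partial intersections -/
def G (H : ℕ → Set ℕ) : ℕ → Set ℕ
  | 0 => H 0
  | k + 1 => G H k ∩ H (k + 1)

theorem G_anti (H : ℕ → Set ℕ) : Antitone (G H) :=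
  antitone_nat_of_succ_le fun k => by
    show G H k ∩ H (k + 1) ≤ G H k
    exact Set.inter_subset_left

theorem G_sub (H : ℕ → Set ℕ) (k : ℕ) : G H k ⊆ H k := by
  cases k with
  | zero => exact subset_rfl
  | succ k =>
    show G H k ∩ H (k + 1) ⊆ H (k + 1)
    exact Set.inter_subset_right

/-- the core: after relabelling -/
theorem core (μ : ℕ → Set ℕ → ℝ) (hF : ∀ n, FA M (μ n)) (hE : Exh μ) (B : ℕ → Set ℕ) (ε : ℝ)
    (hε : 0 < ε) (h1 : ∀ i, ε < μ i (B i)) (h2 : ∀ l i, l < i → μ l (B i) ≤ (1 / 2 : ℝ) ^ i) :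
    False := by
  have hδ : ∀ k : ℕ, 0 < ε / 2 * (1 / 2 : ℝ) ^ (k + 1) := fun k => by positivity
  choose l hl using fun k => sel_inc hE (V B k) (V_mono B k) _ (hδ k)
  set H : ℕ → Set ℕ := fun k => V B k (l k) with hH
  have hBH : ∀ k p, k ≤ p → μ p (B p \ H k) ≤ ε / 2 * (1 / 2 : ℝ) ^ (k + 1) := by
    intro k p hkp
    obtain ⟨d, rfl⟩ := Nat.exists_eq_add_of_le hkp
    rcases lt_or_ge (l k) d with h | h
    · refine le_trans (mono (hF _) ?_) (hl k d h (k + d))
      exact Set.sdiff_subset_sdiff_left (V_mem B k d)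
    · have : B (k + d) \ H k = ∅ := by
        rw [Set.sdiff_eq_empty]
        exact (V_mem B k d).trans (V_mono B k h)
      rw [this, empty (hF _)]
      exact (hδ k).le
  have hBG : ∀ k p, k ≤ p → μ p (B p \ G H k) ≤ ε / 2 * (1 - (1 / 2 : ℝ) ^ (k + 1)) := by
    intro k
    induction k with
    | zero =>
      intro p hp
      have := hBH 0 p hp
      show μ p (B p \ H 0) ≤ _
      norm_num at this ⊢
      linarith
    | succ k ih =>
      intro p hp
      have e1 : B p \ G H (k + 1) ⊆ (B p \ G H k) ∪ (B p \ H (k + 1)) := by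
        intro x hx
        by_cases hx1 : x ∈ G H k
        · right
          exact ⟨hx.1, fun hx2 => hx.2 ⟨hx1, hx2⟩⟩
        · left
          exact ⟨hx.1, hx1⟩
      have e2 := (mono (hF p) e1).trans (sub (hF p) _ _)
      have e3 := ih p (by omega)
      have e4 := hBH (k + 1) p hp
      have e5 : (1 / 2 : ℝ) ^ (k + 1 + 1) = (1 / 2 : ℝ) ^ (k + 1) * (1 / 2) := pow_succ _ _
      rw [e5] at e4 ⊢
      linarith
  have hG1 : ∀ k, ε / 2 ≤ μ k (G H k) := by
    intro k
    have e1 := hBG k k le_rfl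
    have e2 : μ k (B k) ≤ μ k (B k \ G H k) + μ k (G H k) := by
      refine (mono (hF k) ?_).trans (sub (hF k) _ _)
      intro x hx
      by_cases hx1 : x ∈ G H k
      · exact Or.inr hx1
      · exact Or.inl ⟨hx, hx1⟩
    have e3 := h1 k
    have e4 : 0 < (1 / 2 : ℝ) ^ (k + 1) := by positivity
    nlinarith
  have hV : ∀ i k d, i < k → μ i (V B k d) ≤ 2 * (1 / 2 : ℝ) ^ k - (1 / 2 : ℝ) ^ (k + d) := by
    intro i k d hik
    induction d with
    | zero =>
      have := h2 i k hik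
      show μ i (B k) ≤ _
      simp only [add_zero]
      linarith
    | succ d ih =>
      have e1 : μ i (V B k (d + 1)) ≤ μ i (V B k d) + μ i (B (k + d + 1)) := sub (hF i) _ _
      have e2 := h2 i (k + d + 1) (by omega)
      have e3 : (1 / 2 : ℝ) ^ (k + d + 1) = (1 / 2 : ℝ) ^ (k + d) * (1 / 2) := pow_succ _ _
      have e4 : k + (d + 1) = k + d + 1 := by omega
      rw [e4, e3]
      rw [e3] at e2
      linarith
  have hG2 : ∀ i k, i < k → μ i (G H k) ≤ 2 * (1 / 2 : ℝ) ^ k := by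
    intro i k hik
    have e1 := (mono (hF i) (G_sub H k)).trans (hV i k (l k) hik)
    have e2 : 0 < (1 / 2 : ℝ) ^ (k + l k) := by positivity
    linarith
  obtain ⟨q, hq⟩ := sel_dec hE (G H) (G_anti H) (ε / 8) (by positivity)
  obtain ⟨r, hr⟩ := exists_pow_lt_of_lt_one (show (0 : ℝ) < ε / 16 by positivity)
    (by norm_num : (1 / 2 : ℝ) < 1)
  have e1 := hq (q + r + 1) (by omega) q
  have e2 := hG2 q (q + r + 1) (by omega)
  have e3 : (1 / 2 : ℝ) ^ (q + r + 1) ≤ (1 / 2 : ℝ) ^ r :=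
    pow_le_pow_of_le_one (by norm_num) (by norm_num) (by omega)
  have e4 : μ q (G H q) ≤ μ q (G H q \ G H (q + r + 1)) + μ q (G H (q + r + 1)) := by
    refine (mono (hF q) ?_).trans (sub (hF q) _ _)
    intro x hx
    by_cases hx1 : x ∈ G H (q + r + 1)
    · exact Or.inr hx1
    · exact Or.inl ⟨hx, hx1⟩
  have e5 := hG1 q
  linarith

end VhsAux

open VhsAux in
theorem vhsStm : VhsStm := by
  intro M m hF hE B hB ε hε
  by_contra hcon
  push Not at hcon
  obtain ⟨f, hf1, hf2⟩ := exists_seq_of_forall_finset_exists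
    (fun a : ℕ × ℕ × ℕ => ε < m a.2.1 (B a.1))
    (fun a b : ℕ × ℕ × ℕ => a.1 < b.1 ∧ a.2.2 < b.2.2 ∧ m a.2.1 (B b.1) ≤ (1 / 2 : ℝ) ^ b.2.2) (by
      intro s _
      set t : ℕ := s.sup (fun a => a.2.2) + 1 with ht
      have hpos : (0 : ℝ) < (1 / 2 : ℝ) ^ t := by positivity
      have hev : ∀ a ∈ s, ∀ᶠ k in atTop, m a.2.1 (B k) ≤ (1 / 2 : ℝ) ^ t := by
        intro a _
        filter_upwards [(hB a.2.1).eventually (gt_mem_nhds hpos)] with k hk
        exact hk.le
      have hev2 : ∀ᶠ k in atTop, ∀ a ∈ s, m a.2.1 (B k) ≤ (1 / 2 : ℝ) ^ t :=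
        (Filter.eventually_all_finset s).2 hev
      obtain ⟨K, hK⟩ := eventually_atTop.1 hev2
      obtain ⟨k, hk, n, hn⟩ := hcon (max K (s.sup (fun a => a.1) + 1))
      refine ⟨(k, n, t), hn, ?_⟩
      intro a ha
      have h1 : a.1 ≤ s.sup (fun a => a.1) := Finset.le_sup (f := fun a : ℕ × ℕ × ℕ => a.1) ha
      have h2 : a.2.2 ≤ s.sup (fun a => a.2.2) :=
        Finset.le_sup (f := fun a : ℕ × ℕ × ℕ => a.2.2) ha
      have h3 := le_max_right K (s.sup (fun a => a.1) + 1)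
      have h4 := le_max_left K (s.sup (fun a => a.1) + 1)
      refine ⟨?_, ?_, hK k (h4.trans hk) a ha⟩
      · show a.1 < k
        omega
      · show a.2.2 < t
        omega)
  have hmono : StrictMono fun i => (f i).2.2 := fun i j hij => (hf2 i j hij).2.1
  refine core (M := M) (fun i => m (f i).2.1) (fun i => hF _) ?_ (fun i => B (f i).1) ε hε hf1 ?_
  · intro D hD δ hδ
    obtain ⟨K, hK⟩ := hE D hD δ hδ
    exact ⟨K, fun k hk n => hK k hk _⟩
  · intro l i hli
    refine (hf2 l i hli).2.2.trans ?_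
    exact pow_le_pow_of_le_one (by norm_num) (by norm_num) (hmono.id_le i)

end Pool.Agent.R464.GI
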